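import Mathlib

/-!
# The free multiplicative square of a freely infinitely divisible law (MP_d2a342_pr): definitions and
the statements of the steps

The counterexample: `R_μ(w) = m Y(w)` with `Y² (Y - 1) = w`, `Y 0 = 1`, and `μ ⊠ μ = ρ` with
`R_ρ(u) = m² y(m u)²`, `y² - y = u`, `y 0 = 1` (`m ≥ 16`).
-/

set_option autoImplicit false

open MeasureTheory Filter Topology

namespace Pool.Agent.Q289.FM

/-! ### Definitions -/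

/-- A compactly supported probability measure on the real line. -/
def CompactProb (μ : Measure ℝ) : Prop :=
  IsProbabilityMeasure μ ∧ ∃ C : ℝ, μ (Set.Icc (-C) C)ᶜ = 0

/-- A compactly supported probability measure on `[0, ∞)`. -/
def PosLaw (μ : Measure ℝ) : Prop := CompactProb μ ∧ μ (Set.Iio 0) = 0

/-- The Cauchy transform `G_μ(w) = ∫ dμ(x) / (w - x)`. -/
noncomputable def cauchyT (μ : Measure ℝ) (w : ℂ) : ℂ := ∫ x : ℝ, (w - (x : ℂ))⁻¹ ∂μ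

/-- `R` is the R-transform of `μ` near `0`: `R` is analytic at `0` and
`G_μ(R(z) + 1/z) = z` for all small `z ≠ 0`. -/
def IsRTransform (μ : Measure ℝ) (R : ℂ → ℂ) : Prop :=
  AnalyticAt ℂ R 0 ∧ ∀ᶠ z in 𝓝[≠] (0 : ℂ), cauchyT μ (R z + 1 / z) = z

/-- `ν = μ^{⊞ t}` (for compactly supported laws): `R_ν = t R_μ` near `0`. -/
def IsFreePower (t : ℝ) (μ ν : Measure ℝ) : Prop :=
  ∃ R : ℂ → ℂ, IsRTransform μ R ∧ IsRTransform ν (fun z => (t : ℂ) * R z)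

/-- `⊞`-infinite divisibility of a compactly supported law. -/
def FreelyInfDiv (μ : Measure ℝ) : Prop :=
  ∀ n : ℕ, 1 ≤ n → ∃ ν : Measure ℝ, CompactProb ν ∧ IsFreePower (n : ℝ) ν μ

/-- Free regularity: `μ` is `⊞`-infinitely divisible and `μ^{⊞ t}` is a law on `[0, ∞)` for every
`t > 0`. -/
def FreeRegular (μ : Measure ℝ) : Prop :=
  FreelyInfDiv μ ∧ ∀ t : ℝ, 0 < t → ∃ ν : Measure ℝ, PosLaw ν ∧ IsFreePower t μ ν

/-- The moment transform `ψ_μ(t) = ∫ t x / (1 - t x) dμ(x)`. -/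
noncomputable def psi (μ : Measure ℝ) (t : ℂ) : ℂ := ∫ x : ℝ, t * x / (1 - t * x) ∂μ

/-- `S` is the S-transform of `μ` near `0`: `S` is analytic at `0` and
`ψ_μ(z S(z) / (1 + z)) = z` for all small `z`. -/
def IsSTransform (μ : Measure ℝ) (S : ℂ → ℂ) : Prop :=
  AnalyticAt ℂ S 0 ∧ ∀ᶠ z in 𝓝 (0 : ℂ), psi μ (z * S z / (1 + z)) = z

/-- `ρ = μ ⊠ ν` (for compactly supported laws on `[0, ∞)`): `S_ρ = S_μ S_ν` near `0`. -/
def IsFreeMul (μ ν ρ : Measure ℝ) : Prop :=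
  ∃ S T : ℂ → ℂ, IsSTransform μ S ∧ IsSTransform ν T ∧ IsSTransform ρ (fun z => S z * T z)

/-! ### Steps -/

/-- OP: the law of `γ + ℓ + ℓ* + Λ` for operators of Fock type. -/
def S_OP : Prop := ∀ (H : Type) [NormedAddCommGroup H] [InnerProductSpace ℂ H] [CompleteSpace H]
    (Ω : H) (l Λ : H →L[ℂ] H) (N : ℕ) (x s : Fin N → ℝ) (L γ : ℝ),
    ‖Ω‖ = 1 → IsSelfAdjoint Λ → (ContinuousLinearMap.adjoint l) Ω = 0 → Λ Ω = 0 → 0 ≤ L → ‖Λ‖ ≤ L →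
    (∀ i, 0 ≤ s i) → (∀ i, |x i| ≤ L) →
    (∀ k : ℕ, (ContinuousLinearMap.adjoint l) * Λ ^ k * l =
      (∑ i, (s i : ℂ) * (x i : ℂ) ^ k) • (1 : H →L[ℂ] H)) →
    ∃ ν : Measure ℝ, IsProbabilityMeasure ν ∧
      ν (Set.Icc (γ - (L + 2 * √(∑ i, s i))) (γ + (L + 2 * √(∑ i, s i))))ᶜ = 0 ∧
      ∀ z : ℂ, z ≠ 0 → 4 * ‖z‖ * (L + √(∑ i, s i)) < 1 →
        cauchyT ν (((γ : ℂ) + ∑ i, (s i : ℂ) * (z / (1 - x i * z))) + 1 / z) = z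

/-- CU: isometries with orthogonal ranges. -/
def S_CU : Prop := ∀ N : ℕ, ∃ (H : Type) (_ : NormedAddCommGroup H) (_ : InnerProductSpace ℂ H)
    (_ : CompleteSpace H) (Ω : H) (V : Fin N → (H →L[ℂ] H)), ‖Ω‖ = 1 ∧
    (∀ i, (ContinuousLinearMap.adjoint (V i)) Ω = 0) ∧
    ∀ i j, (ContinuousLinearMap.adjoint (V i)) * V j = if i = j then 1 else 0

/-- FIN: free Lévy measures with finite support. -/
def S_FIN : Prop := ∀ (N : ℕ) (x s : Fin N → ℝ) (L γ : ℝ), 0 ≤ L → (∀ i, 0 ≤ s i) →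
    (∀ i, |x i| ≤ L) →
    ∃ ν : Measure ℝ, IsProbabilityMeasure ν ∧
      ν (Set.Icc (γ - (L + 2 * √(∑ i, s i))) (γ + (L + 2 * √(∑ i, s i))))ᶜ = 0 ∧
      ∀ z : ℂ, z ≠ 0 → 4 * ‖z‖ * (L + √(∑ i, s i)) < 1 →
        cauchyT ν (((γ : ℂ) + ∑ i, (s i : ℂ) * (z / (1 - x i * z))) + 1 / z) = z

/-- FID: general compactly supported free Lévy measures. -/
def S_FID : Prop := ∀ (σ : Measure ℝ) [IsFiniteMeasure σ] (L γ : ℝ), 0 ≤ L →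
    σ (Set.Icc (-L) L)ᶜ = 0 →
    ∃ ν : Measure ℝ, IsProbabilityMeasure ν ∧
      ν (Set.Icc (γ - (L + 2 * √(σ.real Set.univ))) (γ + (L + 2 * √(σ.real Set.univ))))ᶜ = 0 ∧
      IsRTransform ν (fun z => (γ : ℂ) + ∫ x : ℝ, z / (1 - x * z) ∂σ)

/-- The numbers `binom(3k+1, k)/(k+1) = 1, 2, 7, 30, 143, …`. -/
noncomputable def tt : ℕ → ℝ
  | 0 => 1
  | k + 1 => tt k * (3 * (3 * k + 4) * (3 * k + 2)) / (2 * (k + 2) * (2 * k + 3))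

/-- BETA: `tt` is a moment sequence on `[0, 27/4]`. -/
def S_BETA : Prop := ∃ τ : Measure ℝ, IsProbabilityMeasure τ ∧
    τ (Set.Icc 0 (27 / 4))ᶜ = 0 ∧ ∀ k : ℕ, ∫ x, x ^ k ∂τ = tt k

/-- GEN: the generating function of `tt` is algebraic. -/
def S_GEN : Prop := ∀ᶠ w : ℂ in 𝓝 0, Summable (fun k : ℕ => (-1) ^ k * (tt k : ℂ) * w ^ (k + 1)) ∧
    (1 + ∑' k : ℕ, (-1) ^ k * (tt k : ℂ) * w ^ (k + 1)) ^ 2 *
      (∑' k : ℕ, (-1) ^ k * (tt k : ℂ) * w ^ (k + 1)) = w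

/-- MP: the Marchenko–Pastur law: `c(u) = ∫ dκ(x)/(1 + u x)` solves `c (1 + u c) = 1`. -/
def S_MP : Prop := ∃ κ : Measure ℝ, IsProbabilityMeasure κ ∧ κ (Set.Icc 0 4)ᶜ = 0 ∧
    ∀ᶠ u : ℂ in 𝓝 0, (∫ x : ℝ, 1 / (1 + u * (x : ℂ)) ∂κ) * (1 + u * ∫ x : ℝ, 1 / (1 + u * (x : ℂ)) ∂κ) = 1

/-- RS: from the R-transform to the S-transform. -/
def S_RS : Prop := ∀ (μ : Measure ℝ) (R W : ℂ → ℂ), CompactProb μ → IsRTransform μ R → R 0 ≠ 0 →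
    AnalyticAt ℂ W 0 → W 0 = 0 → (∀ᶠ z in 𝓝 (0 : ℂ), W z * R (W z) = z) →
    IsSTransform μ (fun z => 1 / R (W z))

/-- MOM: the first three moments in terms of the R-transform. -/
def S_MOM : Prop := ∀ (μ : Measure ℝ) (R : ℂ → ℂ), CompactProb μ → IsRTransform μ R →
    ((∫ x, x ∂μ : ℝ) : ℂ) = R 0 ∧
    ((∫ x, x ^ 2 ∂μ : ℝ) : ℂ) = deriv R 0 + R 0 ^ 2 ∧
    ((∫ x, x ^ 3 ∂μ : ℝ) : ℂ) = iteratedDeriv 2 R 0 / 2 + 3 * R 0 * deriv R 0 + R 0 ^ 3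

/-- NR: the third free cumulant of a free regular law is nonnegative. -/
def S_NR : Prop := ∀ (μ : Measure ℝ) (R : ℂ → ℂ), CompactProb μ → FreeRegular μ →
    IsRTransform μ R → 0 ≤ (iteratedDeriv 2 R 0).re

/-- INV: an analytic solution `V` of `m V³ (V - 1) = z` near `0` with `V 0 = 1`, and the local
injectivity of `y² (y - 1)` and of `y² - y` at `y = 1`. -/
def S_INV : Prop := ∀ m : ℝ, 0 < m → ∃ V : ℂ → ℂ, AnalyticAt ℂ V 0 ∧ V 0 = 1 ∧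
    (∀ᶠ z in 𝓝 (0 : ℂ), (m : ℂ) * V z ^ 3 * (V z - 1) = z) ∧
    ∃ U ∈ 𝓝 (1 : ℂ), Set.InjOn (fun y : ℂ => y ^ 2 * (y - 1)) U ∧
      Set.InjOn (fun y : ℂ => y ^ 2 - y) U

end Pool.Agent.Q289.FM
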