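import Mathlib
import Pool.Agent.Q289.FM.Stm

/-!
# Laws with a finitely supported free Lévy measure
-/

set_option autoImplicit false

open MeasureTheory Filter Topology

namespace Pool.Agent.Q289.FM

theorem fin_of (hOP : S_OP) (hCU : S_CU) : S_FIN := by
  intro N x s L γ hL hs hx
  obtain ⟨H, _, _, _, Ω, V, hΩ, hVΩ, hVV⟩ := hCU N
  set A : Fin N → (H →L[ℂ] H) := fun i => ContinuousLinearMap.adjoint (V i) with hA
  have hVVa : ∀ i j (h : H), A i (V j h) = if i = j then h else 0 := by
    intro i j h
    have h1 := congrArg (fun T : H →L[ℂ] H => T h) (hVV i j)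
    simp only [mul_apply_eq_comp] at h1
    rw [hA]
    simp only
    rw [h1]
    split_ifs <;> simp
  -- the operators
  set l : H →L[ℂ] H := ∑ i, (√(s i) : ℂ) • V i with hl
  set Λ : H →L[ℂ] H := ∑ i, (x i : ℂ) • (V i * A i) with hΛ
  have hladj : ContinuousLinearMap.adjoint l = ∑ i, (√(s i) : ℂ) • A i := by
    rw [hl, map_sum]
    congr 1
    funext i
    rw [map_smulₛₗ]
    simp [hA]
  have hPadj : ∀ i, ContinuousLinearMap.adjoint (V i * A i) = V i * A i := by
    intro i
    have : V i * A i = V i ∘L A i := rfl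
    rw [this, ContinuousLinearMap.adjoint_comp, hA]
    simp only [ContinuousLinearMap.adjoint_adjoint]
  have hΛsa : IsSelfAdjoint Λ := by
    rw [ContinuousLinearMap.isSelfAdjoint_iff', hΛ, map_sum]
    congr 1
    funext i
    rw [map_smulₛₗ, hPadj i]
    simp
  have hΛpow : ∀ (k : ℕ) (j : Fin N) (h : H), (Λ ^ k) (V j h) = (x j : ℂ) ^ k • V j h := by
    intro k j h
    induction k with
    | zero => simp
    | succ k ih =>
      rw [pow_succ', mul_apply_eq_comp, ih, map_smul]
      have h1 : Λ (V j h) = (x j : ℂ) • V j h := by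
        rw [hΛ, _root_.sum_apply]
        simp only [_root_.smul_apply, mul_apply_eq_comp, hVVa]
        rw [Finset.sum_eq_single j]
        · simp
        · intro i _ hij
          simp [hij]
        · simp
      rw [h1, smul_smul, pow_succ]
  have hnorm : ‖Λ‖ ≤ L := by
    apply ContinuousLinearMap.opNorm_le_bound _ hL
    intro h
    -- orthogonal decomposition
    have hsq : ∀ c : Fin N → H, ‖∑ i, V i (c i)‖ ^ 2 = ∑ i, ‖c i‖ ^ 2 := by
      intro c
      have h1 : inner ℂ (∑ i, V i (c i)) (∑ i, V i (c i)) = ∑ i, inner ℂ (c i) (c i) := by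
        rw [sum_inner]
        congr 1
        funext i
        rw [inner_sum, Finset.sum_eq_single i]
        · rw [← ContinuousLinearMap.adjoint_inner_right]
          have := hVVa i i (c i)
          rw [hA] at this
          simp only [if_true] at this
          rw [this]
        · intro j _ hij
          rw [← ContinuousLinearMap.adjoint_inner_right]
          have := hVVa i j (c j)
          rw [hA] at this
          simp only [if_neg (Ne.symm hij)] at this
          rw [this, inner_zero_right]
        · simp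
      rw [inner_self_eq_norm_sq_to_K] at h1
      have h2 : ∀ i, inner ℂ (c i) (c i) = ((‖c i‖ ^ 2 : ℝ) : ℂ) := by
        intro i
        rw [inner_self_eq_norm_sq_to_K]
        push_cast
        rfl
      simp only [h2] at h1
      have h3 : ((‖∑ i, V i (c i)‖ ^ 2 : ℝ) : ℂ) = ((∑ i, ‖c i‖ ^ 2 : ℝ) : ℂ) := by
        rw [Complex.ofReal_sum, ← h1]
        push_cast
        rfl
      exact_mod_cast h3
    have hbes : ∑ i, ‖A i h‖ ^ 2 ≤ ‖h‖ ^ 2 := by
      have h1 := hsq (fun i => A i h)
      have h2 : inner ℂ h (∑ i, V i (A i h)) = ((∑ i, ‖A i h‖ ^ 2 : ℝ) : ℂ) := by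
        rw [inner_sum]
        push_cast
        congr 1
        funext i
        rw [← ContinuousLinearMap.adjoint_inner_left]
        change inner ℂ (A i h) (A i h) = _
        rw [inner_self_eq_norm_sq_to_K]
        rfl
      have h3 := norm_inner_le_norm (𝕜 := ℂ) h (∑ i, V i (A i h))
      rw [h2, Complex.norm_real, Real.norm_eq_abs, ← h1, abs_of_nonneg (by positivity)] at h3
      by_cases h0 : ‖∑ i, V i (A i h)‖ = 0
      · have h7 : ∑ i, ‖A i h‖ ^ 2 = 0 := by
          rw [← h1, h0, zero_pow two_ne_zero]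
        rw [h7]
        exact sq_nonneg _
      · have h4 : 0 < ‖∑ i, V i (A i h)‖ := lt_of_le_of_ne (norm_nonneg _) (Ne.symm h0)
        have h5 : ‖∑ i, V i (A i h)‖ ≤ ‖h‖ := by
          rw [sq] at h3
          exact le_of_mul_le_mul_right h3 h4
        rw [← h1]
        exact pow_le_pow_left₀ (norm_nonneg _) h5 2
    have h6 : Λ h = ∑ i, V i ((x i : ℂ) • A i h) := by
      rw [hΛ, _root_.sum_apply]
      congr 1
      funext i
      simp
    have h7 : ‖Λ h‖ ^ 2 ≤ (L * ‖h‖) ^ 2 := by
      rw [h6, hsq]
      calc ∑ i, ‖(x i : ℂ) • A i h‖ ^ 2 ≤ ∑ i, L ^ 2 * ‖A i h‖ ^ 2 := by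
            apply Finset.sum_le_sum
            intro i _
            rw [norm_smul, Complex.norm_real, Real.norm_eq_abs, mul_pow]
            have := pow_le_pow_left₀ (abs_nonneg (x i)) (hx i) 2
            gcongr
        _ = L ^ 2 * ∑ i, ‖A i h‖ ^ 2 := by rw [Finset.mul_sum]
        _ ≤ L ^ 2 * ‖h‖ ^ 2 := by gcongr
        _ = (L * ‖h‖) ^ 2 := by ring
    exact le_of_sq_le_sq h7 (by positivity)
  refine hOP H Ω l Λ N x s L γ hΩ hΛsa ?_ ?_ hL hnorm hs hx ?_
  · rw [hladj, _root_.sum_apply]
    apply Finset.sum_eq_zero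
    intro i _
    rw [_root_.smul_apply, hA]
    simp only
    rw [hVΩ i, smul_zero]
  · rw [hΛ, _root_.sum_apply]
    apply Finset.sum_eq_zero
    intro i _
    rw [_root_.smul_apply, mul_apply_eq_comp, hA]
    simp only
    rw [hVΩ i, map_zero, smul_zero]
  · intro k
    ext h
    rw [hladj, hl]
    simp only [mul_apply_eq_comp, _root_.sum_apply,
      _root_.smul_apply, map_sum, map_smul, hΛpow, hVVa, one_apply_eq_self]
    rw [Finset.sum_smul]
    congr 1
    funext i
    rw [Finset.sum_eq_single i]
    · simp only [if_true]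
      rw [smul_smul, smul_smul]
      congr 1
      have h1 : (√(s i) : ℂ) * (√(s i) : ℂ) = (s i : ℂ) := by
        rw [← Complex.ofReal_mul, Real.mul_self_sqrt (hs i)]
      linear_combination (x i : ℂ) ^ k * h1
    · intro j _ hij
      rw [if_neg hij, smul_zero]
    · simp

end Pool.Agent.Q289.FM
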