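import Mathlib
import Pool.Agent.Q289.FM.Stm

/-!
# Local inverses
-/

set_option autoImplicit false

open MeasureTheory Filter Topology

namespace Pool.Agent.Q289.FM

lemma injOn_of_strict {f : ℂ → ℂ} {f' a : ℂ} (h : HasStrictDerivAt f f' a) (h0 : f' ≠ 0) :
    ∃ U ∈ 𝓝 a, Set.InjOn f U := by
  have h1 : HasStrictFDerivAt f ((ContinuousLinearEquiv.unitsEquivAut ℂ (Units.mk0 f' h0) : ℂ ≃L[ℂ] ℂ) : ℂ →L[ℂ] ℂ) a :=
    h.hasStrictFDerivAt_equiv h0
  refine ⟨(h1.toOpenPartialHomeomorph f).source, ?_, ?_⟩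
  · exact (h1.toOpenPartialHomeomorph f).open_source.mem_nhds h1.mem_toOpenPartialHomeomorph_source
  · exact (h1.toOpenPartialHomeomorph f).injOn

theorem inv : S_INV := by
  intro m hm
  have hmc : (m : ℂ) ≠ 0 := by exact_mod_cast hm.ne'
  set f : ℂ → ℂ := fun y => (m : ℂ) * y ^ 3 * (y - 1) with hf
  have hfa : AnalyticAt ℂ f 1 := by
    apply AnalyticAt.mul
    · exact analyticAt_const.mul (analyticAt_id.pow 3)
    · exact analyticAt_id.sub analyticAt_const
  have h0 : deriv f 1 ≠ 0 := by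
    have h3 := (((hasDerivAt_id (1 : ℂ)).pow 3).const_mul (m : ℂ)).mul ((hasDerivAt_id (1 : ℂ)).sub_const 1)
    have h2 : HasDerivAt f m 1 := by
      refine h3.congr_deriv ?_
      simp
    rw [h2.deriv]
    exact hmc
  have hd := hfa.hasStrictDerivAt
  set V := hd.localInverse _ _ _ h0 with hV
  have hf1 : f 1 = 0 := by simp [hf]
  have hVr : ∀ᶠ z in 𝓝 (0 : ℂ), f (V z) = z := by
    have := (hd.hasStrictFDerivAt_equiv h0).eventually_right_inverse
    rw [hf1] at this
    exact this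
  have hVa : AnalyticAt ℂ V 0 := by
    have h1 := hfa.analyticAt_localInverse h0
    rw [hf1] at h1
    exact h1
  refine ⟨V, hVa, ?_, hVr, ?_⟩
  · have := (hd.hasStrictFDerivAt_equiv h0).localInverse_apply_image
    rw [hf1] at this
    exact this
  · obtain ⟨U1, hU1, i1⟩ := injOn_of_strict (f := fun y : ℂ => y ^ 2 * (y - 1)) (f' := 1) (a := 1) (by
      have h1 : AnalyticAt ℂ (fun y : ℂ => y ^ 2 * (y - 1)) 1 :=
        (analyticAt_id.pow 2).mul (analyticAt_id.sub analyticAt_const)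
      have h2 : HasDerivAt (fun y : ℂ => y ^ 2 * (y - 1)) 1 1 := by
        have h3 := ((hasDerivAt_id (1 : ℂ)).pow 2).mul ((hasDerivAt_id (1 : ℂ)).sub_const 1)
        refine h3.congr_deriv ?_
        simp
      have h3 := h1.hasStrictDerivAt
      rwa [h2.deriv] at h3) one_ne_zero
    obtain ⟨U2, hU2, i2⟩ := injOn_of_strict (f := fun y : ℂ => y ^ 2 - y) (f' := 1) (a := 1) (by
      have h1 : AnalyticAt ℂ (fun y : ℂ => y ^ 2 - y) 1 :=
        (analyticAt_id.pow 2).sub analyticAt_id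
      have h2 : HasDerivAt (fun y : ℂ => y ^ 2 - y) 1 1 := by
        have h3 := ((hasDerivAt_id (1 : ℂ)).pow 2).sub (hasDerivAt_id (1 : ℂ))
        refine h3.congr_deriv ?_
        norm_num
      have h3 := h1.hasStrictDerivAt
      rwa [h2.deriv] at h3) one_ne_zero
    exact ⟨U1 ∩ U2, inter_mem hU1 hU2, i1.mono Set.inter_subset_left, i2.mono Set.inter_subset_right⟩

end Pool.Agent.Q289.FM
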