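import Mathlib
import Pool.Agent.Q289.FM.Stm

/-!
# Assembly of the counterexample
-/

set_option autoImplicit false

open MeasureTheory Filter Topology

namespace Pool.Agent.Q289.FM

/-- the R-transform with mean `γ` and free Lévy measure `σ` -/
noncomputable def RR (γ : ℝ) (σ : Measure ℝ) (z : ℂ) : ℂ := (γ : ℂ) + ∫ x : ℝ, z / (1 - x * z) ∂σ

lemma compactProb_of {ν : Measure ℝ} [IsProbabilityMeasure ν] {a b : ℝ}
    (h : ν (Set.Icc a b)ᶜ = 0) : CompactProb ν := by
  refine ⟨inferInstance, max |a| |b|, ?_⟩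
  refine measure_mono_null (Set.compl_subset_compl.2 ?_) h
  intro x hx
  rw [Set.mem_Icc] at hx ⊢
  constructor
  · have := le_max_left |a| |b|
    have := neg_abs_le a
    linarith [hx.1]
  · have := le_max_right |a| |b|
    have := le_abs_self b
    linarith [hx.2]

lemma posLaw_of {ν : Measure ℝ} [IsProbabilityMeasure ν] {a b : ℝ} (ha : 0 ≤ a)
    (h : ν (Set.Icc a b)ᶜ = 0) : PosLaw ν := by
  refine ⟨compactProb_of h, ?_⟩
  refine measure_mono_null ?_ h
  intro x hx
  rw [Set.mem_Iio] at hx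
  rw [Set.mem_compl_iff, Set.mem_Icc]
  intro h'
  linarith [h'.1]

/-- existence of freely infinitely divisible laws -/
theorem exists_id (hF : S_FID) (σ : Measure ℝ) [IsFiniteMeasure σ] (L γ : ℝ) (hL : 0 ≤ L)
    (hσ : σ (Set.Icc (-L) L)ᶜ = 0) :
    ∃ ν : Measure ℝ, IsProbabilityMeasure ν ∧
      ν (Set.Icc (γ - (L + 2 * √(σ.real Set.univ))) (γ + (L + 2 * √(σ.real Set.univ))))ᶜ = 0 ∧
      IsRTransform ν (RR γ σ) ∧ FreelyInfDiv ν := by
  obtain ⟨ν, h1, h2, h3⟩ := hF σ L γ hL hσ
  refine ⟨ν, h1, h2, h3, ?_⟩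
  intro n hn
  have hn0 : (0 : ℝ) < n := by exact_mod_cast hn
  set c : ENNReal := ENNReal.ofReal (1 / n) with hc
  have hct : c.toReal = 1 / n := ENNReal.toReal_ofReal (by positivity)
  have hcs : (c • σ) (Set.Icc (-L) L)ᶜ = 0 := by
    rw [Measure.smul_apply, hσ, smul_zero]
  have : IsFiniteMeasure (c • σ) := Measure.smul_finite σ ENNReal.ofReal_ne_top
  obtain ⟨ν', h1', h2', h3'⟩ := hF (c • σ) L (γ / n) hL hcs
  refine ⟨ν', compactProb_of h2', _, h3', ?_⟩
  have he : (fun z : ℂ => (((n : ℝ) : ℝ) : ℂ) * ((((γ / n : ℝ)) : ℂ) + ∫ x : ℝ, z / (1 - x * z) ∂(c • σ))) =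
      RR γ σ := by
    funext z
    unfold RR
    rw [integral_smul_measure, hct]
    have hn1 : (n : ℂ) ≠ 0 := by exact_mod_cast hn0.ne'
    rw [Complex.real_smul]
    push_cast
    field_simp
  rw [he]
  exact h3

lemma IsSTransform.congr {μ : Measure ℝ} {S T : ℂ → ℂ} (h : IsSTransform μ S)
    (he : ∀ᶠ z in 𝓝 (0 : ℂ), S z = T z) : IsSTransform μ T := by
  refine ⟨h.1.congr he, ?_⟩
  filter_upwards [h.2, he] with z h1 h2
  rw [← h2]; exact h1

/-- the law `μ` -/
theorem mu_exists (hF : S_FID) (hB : S_BETA) (hG : S_GEN) (m : ℝ) (hm : 16 ≤ m) :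
    ∃ (μ : Measure ℝ) (Y : ℂ → ℂ), PosLaw μ ∧ FreelyInfDiv μ ∧ AnalyticAt ℂ Y 0 ∧ Y 0 = 1 ∧
      (∀ᶠ w in 𝓝 (0 : ℂ), Y w ^ 2 * (Y w - 1) = w) ∧ IsRTransform μ (fun w => (m : ℂ) * Y w) := by
  obtain ⟨τ, hτ1, hτ2, hτ3⟩ := hB
  have hm0 : 0 < m := by linarith
  set c : ENNReal := ENNReal.ofReal m with hc
  have hct : c.toReal = m := ENNReal.toReal_ofReal hm0.le
  set σ : Measure ℝ := c • τ.map (fun x => -x) with hσd
  have : IsProbabilityMeasure (τ.map (fun x : ℝ => -x)) :=
    Measure.isProbabilityMeasure_map (by fun_prop)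
  have : IsFiniteMeasure σ := Measure.smul_finite _ ENNReal.ofReal_ne_top
  have hmass : σ.real Set.univ = m := by
    rw [hσd, measureReal_ennreal_smul_apply, hct, probReal_univ, mul_one]
  have hsupp : σ (Set.Icc (-(27 / 4)) (27 / 4))ᶜ = 0 := by
    rw [hσd, Measure.smul_apply, Measure.map_apply (by fun_prop) measurableSet_Icc.compl]
    rw [measure_mono_null ?_ hτ2, smul_zero]
    intro x hx
    simp only [Set.mem_preimage, Set.mem_compl_iff, Set.mem_Icc] at hx ⊢
    intro h
    apply hx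
    constructor <;> linarith [h.1, h.2]
  obtain ⟨μ, h1, h2, h3, h4⟩ := exists_id hF σ (27 / 4) m (by norm_num) hsupp
  rw [hmass] at h2
  have hs4 : √m ≤ m / 4 := by
    rw [Real.sqrt_le_left (by linarith)]
    nlinarith
  set Y : ℂ → ℂ := fun w => 1 + ∫ x : ℝ, w / (1 + x * w) ∂τ with hY
  have hRR : RR m σ = fun w => (m : ℂ) * Y w := by
    funext w
    unfold RR
    rw [hσd, integral_smul_measure, hct, hY]
    rw [integral_map (by fun_prop) (by
      apply Measurable.aestronglyMeasurable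
      fun_prop)]
    rw [Complex.real_smul]
    simp only [Complex.ofReal_neg, neg_mul, sub_neg_eq_add]
    ring
  have hYan : AnalyticAt ℂ Y 0 := by
    have h5 := h3.1
    rw [hRR] at h5
    have h6 : Y = fun w => (1 / (m : ℂ)) * ((m : ℂ) * Y w) := by
      funext w
      have : (m : ℂ) ≠ 0 := by exact_mod_cast hm0.ne'
      field_simp
    rw [h6]
    exact analyticAt_const.mul h5
  refine ⟨μ, Y, posLaw_of (a := m - (27 / 4 + 2 * √m)) (by linarith) h2, h4, hYan, ?_, ?_, ?_⟩
  · simp [hY]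
  · -- the algebraic equation
    have hball : ∀ᶠ w : ℂ in 𝓝 0, ‖w‖ < 1 / 8 := by
      have := Metric.ball_mem_nhds (0 : ℂ) (show (0 : ℝ) < 1 / 8 by norm_num)
      filter_upwards [this] with w hw
      simpa using hw
    filter_upwards [hG, hball] with w hw hw8
    have hkey : ∫ x : ℝ, w / (1 + x * w) ∂τ = ∑' k : ℕ, (-1) ^ k * (tt k : ℂ) * w ^ (k + 1) := by
      have hae : ∀ᵐ x ∂τ, x ∈ Set.Icc (0 : ℝ) (27 / 4) := by
        rw [ae_iff]
        exact hτ2
      have hint : ∀ k : ℕ, Integrable (fun x : ℝ => (-1) ^ k * ((x : ℂ)) ^ k * w ^ (k + 1)) τ := by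
        intro k
        refine Integrable.mono' (g := fun _ => (27 / 4 : ℝ) ^ k * ‖w‖ ^ (k + 1)) (integrable_const _) ?_ ?_
        · apply Measurable.aestronglyMeasurable
          fun_prop
        · filter_upwards [hae] with x hx
          rw [norm_mul, norm_mul, norm_pow, norm_pow, norm_pow, norm_neg, norm_one, one_pow, one_mul,
            Complex.norm_real, Real.norm_eq_abs, abs_of_nonneg hx.1]
          exact mul_le_mul_of_nonneg_right (pow_le_pow_left₀ hx.1 hx.2 k) (by positivity)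
      have hsum : HasSum (fun k : ℕ => ∫ x : ℝ, (-1) ^ k * ((x : ℂ)) ^ k * w ^ (k + 1) ∂τ)
          (∫ x : ℝ, ∑' k : ℕ, (-1) ^ k * ((x : ℂ)) ^ k * w ^ (k + 1) ∂τ) := by
        apply hasSum_integral_of_summable_integral_norm hint
        refine Summable.of_nonneg_of_le (fun k => integral_nonneg fun _ => norm_nonneg _)
          (g := fun k => ∫ x : ℝ, ‖(-1) ^ k * ((x : ℂ)) ^ k * w ^ (k + 1)‖ ∂τ)
          (f := fun k => ((27 / 4 : ℝ) * ‖w‖) ^ k * ‖w‖) ?_ ?_
        · intro k
          calc ∫ x : ℝ, ‖(-1) ^ k * ((x : ℂ)) ^ k * w ^ (k + 1)‖ ∂τ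
              ≤ ∫ x : ℝ, (27 / 4 : ℝ) ^ k * ‖w‖ ^ (k + 1) ∂τ := by
                apply integral_mono_ae (hint k).norm (integrable_const _)
                filter_upwards [hae] with x hx
                rw [norm_mul, norm_mul, norm_pow, norm_pow, norm_pow, norm_neg, norm_one, one_pow, one_mul,
                  Complex.norm_real, Real.norm_eq_abs, abs_of_nonneg hx.1]
                exact mul_le_mul_of_nonneg_right (pow_le_pow_left₀ hx.1 hx.2 k) (by positivity)
            _ = ((27 / 4 : ℝ) * ‖w‖) ^ k * ‖w‖ := by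
                rw [integral_const, probReal_univ, one_smul, mul_pow, pow_succ]; ring
        · apply Summable.mul_right
          apply summable_geometric_of_lt_one (by positivity)
          linarith
      have h7 : ∀ᵐ x : ℝ ∂τ, ∑' k : ℕ, (-1) ^ k * ((x : ℂ)) ^ k * w ^ (k + 1) = w / (1 + x * w) := by
        filter_upwards [hae] with x hx
        have hq : ‖-((x : ℂ) * w)‖ < 1 := by
          rw [norm_neg, norm_mul, Complex.norm_real, Real.norm_eq_abs, abs_of_nonneg hx.1]
          have : x * ‖w‖ ≤ 27 / 4 * (1 / 8) := by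
            apply mul_le_mul hx.2 hw8.le (norm_nonneg _) (by norm_num)
          linarith
        have h8 := tsum_geometric_of_norm_lt_one hq
        have h9 : (fun k : ℕ => (-1) ^ k * ((x : ℂ)) ^ k * w ^ (k + 1)) =
            fun k : ℕ => (-((x : ℂ) * w)) ^ k * w := by
          funext k
          have h10 : (-((x : ℂ) * w)) ^ k = (-1) ^ k * ((x : ℂ) ^ k * w ^ k) := by
            rw [neg_pow, mul_pow]
          rw [h10, pow_succ]; ring
        rw [h9, tsum_mul_right, h8]
        rw [sub_neg_eq_add]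
        field_simp
      rw [integral_congr_ae h7] at hsum
      rw [← hsum.tsum_eq]
      congr 1
      funext k
      rw [integral_mul_const]
      rw [integral_const_mul]
      rw [← hτ3 k]
      congr 2
      rw [← integral_complex_ofReal]
      simp
    rw [hY]
    simp only
    rw [hkey]
    have := hw.2
    simpa using this
  · rw [← hRR]; exact h3

/-- the value of the second derivative -/
theorem second_deriv (Y : ℂ → ℂ) (hY : AnalyticAt ℂ Y 0) (h0 : Y 0 = 1)
    (h : ∀ᶠ w in 𝓝 (0 : ℂ), Y w ^ 2 * (Y w - 1) = w) (m : ℝ) :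
    iteratedDeriv 2 (fun w => (m : ℂ) * Y w) 0 = -4 * m := by
  have hev : ∀ᶠ w in 𝓝 (0 : ℂ), AnalyticAt ℂ Y w := hY.eventually_analyticAt
  have hd1 : ∀ᶠ w in 𝓝 (0 : ℂ), deriv Y w * (3 * Y w ^ 2 - 2 * Y w) = 1 := by
    filter_upwards [h.eventually_nhds, hev] with w hw hYw
    have e1 : (fun w => Y w ^ 2 * (Y w - 1)) =ᶠ[𝓝 w] fun w => w := hw
    have e2 := e1.deriv_eq
    rw [deriv_id''] at e2
    have e3 : HasDerivAt (fun w => Y w ^ 2 * (Y w - 1))
        ((2 * Y w ^ 1 * deriv Y w) * (Y w - 1) + Y w ^ 2 * deriv Y w) w := by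
      have hy := hYw.differentiableAt.hasDerivAt
      exact ((hy.pow 2).mul (hy.sub_const 1)).congr_deriv (by simp only [Pi.pow_apply]; push_cast; ring)
    rw [e3.deriv] at e2
    linear_combination e2
  have hd10 : deriv Y 0 = 1 := by
    have := hd1.self_of_nhds
    rw [h0] at this
    linear_combination this
  have hYd : AnalyticAt ℂ (deriv Y) 0 := hY.deriv
  have hd2 : deriv (deriv Y) 0 = -4 := by
    have e1 : (fun w => deriv Y w * (3 * Y w ^ 2 - 2 * Y w)) =ᶠ[𝓝 0] fun _ => (1 : ℂ) := hd1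
    have e2 := e1.deriv_eq
    rw [deriv_const] at e2
    have hy := hY.differentiableAt.hasDerivAt
    have hy2 := hYd.differentiableAt.hasDerivAt
    have e3 : HasDerivAt (fun w => deriv Y w * (3 * Y w ^ 2 - 2 * Y w))
        (deriv (deriv Y) 0 * (3 * Y 0 ^ 2 - 2 * Y 0) +
          deriv Y 0 * (6 * Y 0 * deriv Y 0 - 2 * deriv Y 0)) 0 := by
      refine (hy2.mul (((hy.pow 2).const_mul 3).sub (hy.const_mul 2))).congr_deriv ?_
      simp only [Pi.pow_apply, Pi.sub_apply]
      push_cast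
      ring
    rw [e3.deriv, h0, hd10] at e2
    linear_combination e2
  have e5 : iteratedDeriv 2 (fun w => (m : ℂ) * Y w) 0 = m * iteratedDeriv 2 Y 0 := by
    rw [iteratedDeriv_const_mul_field]
  rw [e5, iteratedDeriv_succ, iteratedDeriv_one, hd2]
  ring

/-- the law `ρ` -/
theorem rho_exists (hF : S_FID) (hMP : S_MP) (m : ℝ) (hm : 16 ≤ m) :
    ∃ (ρ : Measure ℝ) (y : ℂ → ℂ), PosLaw ρ ∧ FreelyInfDiv ρ ∧ y 0 = 1 ∧ ContinuousAt y 0 ∧
      (∀ᶠ u in 𝓝 (0 : ℂ), y u ^ 2 - y u = u) ∧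
      IsRTransform ρ (fun u => (m : ℂ) ^ 2 * y (m * u) ^ 2) := by
  obtain ⟨κ, hκ1, hκ2, hκ3⟩ := hMP
  have hm0 : 0 < m := by linarith
  set c : ENNReal := ENNReal.ofReal (m ^ 3) with hc
  have hct : c.toReal = m ^ 3 := ENNReal.toReal_ofReal (by positivity)
  set σ : Measure ℝ := c • (Measure.dirac 0 + κ).map (fun x => -(m * x)) with hσd
  have : IsFiniteMeasure σ := Measure.smul_finite _ ENNReal.ofReal_ne_top
  have hmass : σ.real Set.univ = 2 * m ^ 3 := by
    rw [hσd, measureReal_ennreal_smul_apply, hct, map_measureReal_apply (by fun_prop) MeasurableSet.univ,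
      Set.preimage_univ, measureReal_add_apply, probReal_univ, probReal_univ]
    ring
  have hsupp : σ (Set.Icc (-(4 * m)) (4 * m))ᶜ = 0 := by
    rw [hσd, Measure.smul_apply, Measure.map_apply (by fun_prop) measurableSet_Icc.compl,
      Measure.add_apply]
    have h1 : (Measure.dirac (0 : ℝ)) ((fun x => -(m * x)) ⁻¹' (Set.Icc (-(4 * m)) (4 * m))ᶜ) = 0 := by
      have hn : (0 : ℝ) ∉ (fun x => -(m * x)) ⁻¹' (Set.Icc (-(4 * m)) (4 * m))ᶜ := by
        intro h
        apply h
        rw [Set.mem_Icc]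
        constructor <;> simp only [mul_zero, neg_zero] <;> linarith
      rw [Measure.dirac_apply' _ ((by fun_prop : Measurable (fun x : ℝ => -(m * x)))
        measurableSet_Icc.compl), Set.indicator_of_notMem hn]
    have h2 : κ ((fun x => -(m * x)) ⁻¹' (Set.Icc (-(4 * m)) (4 * m))ᶜ) = 0 := by
      refine measure_mono_null ?_ hκ2
      intro x hx
      simp only [Set.mem_preimage, Set.mem_compl_iff, Set.mem_Icc] at hx ⊢
      intro h
      apply hx
      constructor
      · have := mul_le_mul_of_nonneg_left h.2 hm0.le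
        linarith
      · have := mul_nonneg hm0.le h.1
        linarith
    rw [h1, h2, add_zero, smul_zero]
  obtain ⟨ρ, h1, h2, h3, h4⟩ := exists_id hF σ (4 * m) (m ^ 2) (by linarith) hsupp
  rw [hmass] at h2
  have hs4 : √(2 * m ^ 3) ≤ (m ^ 2 - 4 * m) / 2 := by
    rw [Real.sqrt_le_left (by nlinarith)]
    have h5 : 0 ≤ m - 16 := by linarith
    have : 0 ≤ m ^ 2 * ((m - 4) ^ 2 - 8 * m) := by
      apply mul_nonneg (by positivity)
      nlinarith
    nlinarith
  set cc : ℂ → ℂ := fun u => ∫ x : ℝ, 1 / (1 + u * (x : ℂ)) ∂κ with hcc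
  set y : ℂ → ℂ := fun u => 1 + u * cc u with hy
  have hyq : ∀ᶠ u in 𝓝 (0 : ℂ), y u ^ 2 = 1 + u * (1 + cc u) := by
    filter_upwards [hκ3] with u hu
    rw [hy]
    simp only
    have hu' : cc u * (1 + u * cc u) = 1 := hu
    linear_combination u * hu'
  have hRR : (fun u => RR (m ^ 2) σ u) =ᶠ[𝓝 0] fun u => (m : ℂ) ^ 2 * y (m * u) ^ 2 := by
    have ht : Tendsto (fun u : ℂ => (m : ℂ) * u) (𝓝 0) (𝓝 0) := by
      have : Continuous fun u : ℂ => (m : ℂ) * u := by fun_prop
      have h5 := this.tendsto 0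
      rwa [mul_zero] at h5
    have hball : ∀ᶠ u : ℂ in 𝓝 0, ‖u‖ * m < 1 / 8 := by
      have := Metric.ball_mem_nhds (0 : ℂ) (show (0 : ℝ) < 1 / (8 * m) by positivity)
      filter_upwards [this] with w hw
      rw [mem_ball_zero_iff] at hw
      rw [lt_div_iff₀ (by positivity)] at hw
      linarith
    filter_upwards [ht.eventually hyq, hball] with u hu hu8
    rw [hu]
    unfold RR
    have hae : ∀ᵐ x ∂κ, x ∈ Set.Icc (0 : ℝ) 4 := by
      rw [ae_iff]
      exact hκ2
    have hmf : Measurable (fun x : ℝ => u / (1 - (x : ℂ) * u)) := by fun_prop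
    rw [hσd, integral_smul_measure, hct, integral_map (by fun_prop) hmf.aestronglyMeasurable,
      integral_add_measure, integral_dirac]
    · have h6 : ∫ x : ℝ, u / (1 - ((-(m * x) : ℝ) : ℂ) * u) ∂κ = u * cc (m * u) := by
        rw [hcc]
        simp only
        rw [← integral_const_mul]
        congr 1
        funext x
        push_cast
        rw [mul_one_div]
        congr 1
        ring
      rw [h6, Complex.real_smul]
      push_cast
      simp only [mul_zero, neg_zero, zero_mul, sub_zero, div_one]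
      ring
    · exact integrable_dirac (by simp)
    · refine Integrable.mono' (g := fun _ => 2 * ‖u‖) (integrable_const _) ?_ ?_
      · apply Measurable.aestronglyMeasurable
        fun_prop
      · filter_upwards [hae] with x hx
        have h7 : (1 / 2 : ℝ) ≤ ‖1 - ((-(m * x) : ℝ) : ℂ) * u‖ := by
          have h8 : ‖((-(m * x) : ℝ) : ℂ) * u‖ ≤ 1 / 2 := by
            rw [norm_mul, Complex.norm_real, Real.norm_eq_abs, abs_neg, abs_of_nonneg
              (mul_nonneg hm0.le hx.1)]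
            have : m * x * ‖u‖ ≤ m * 4 * ‖u‖ := by
              have := hx.2
              gcongr
            linarith
          have h9 := norm_sub_norm_le (1 : ℂ) (((-(m * x) : ℝ) : ℂ) * u)
          rw [norm_one] at h9
          linarith
        rw [norm_div, div_le_iff₀ (by linarith)]
        nlinarith [norm_nonneg u]
  have hcont : ContinuousAt y 0 := by
    have hae : ∀ᵐ x ∂κ, x ∈ Set.Icc (0 : ℝ) 4 := by
      rw [ae_iff]
      exact hκ2
    have hb : ∀ᶠ u : ℂ in 𝓝 0, ‖u * cc u‖ ≤ 2 * ‖u‖ := by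
      have := Metric.ball_mem_nhds (0 : ℂ) (show (0 : ℝ) < 1 / 8 by norm_num)
      filter_upwards [this] with u hu
      rw [mem_ball_zero_iff] at hu
      have h5 : ‖cc u‖ ≤ 2 := by
        rw [hcc]
        simp only
        have := norm_integral_le_of_norm_le_const (μ := κ) (f := fun x : ℝ => 1 / (1 + u * (x : ℂ))) (C := 2) (by
          filter_upwards [hae] with x hx
          have h7 : (1 / 2 : ℝ) ≤ ‖1 + u * (x : ℂ)‖ := by
            have h8 : ‖u * (x : ℂ)‖ ≤ 1 / 2 := by
              rw [norm_mul, Complex.norm_real, Real.norm_eq_abs, abs_of_nonneg hx.1]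
              have : ‖u‖ * x ≤ 1 / 8 * 4 := mul_le_mul hu.le hx.2 hx.1 (by norm_num)
              linarith
            have h9 := norm_sub_norm_le (1 : ℂ) (-(u * (x : ℂ)))
            rw [norm_one, norm_neg, sub_neg_eq_add] at h9
            linarith
          rw [norm_div, norm_one, div_le_iff₀ (by linarith)]
          linarith)
        rwa [probReal_univ, mul_one] at this
      rw [norm_mul]
      nlinarith [norm_nonneg u]
    have ht : Tendsto (fun u : ℂ => u * cc u) (𝓝 0) (𝓝 0) := by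
      apply squeeze_zero_norm' hb
      have : Continuous fun u : ℂ => 2 * ‖u‖ := by fun_prop
      have h5 := this.tendsto 0
      simpa using h5
    have h6 : Tendsto y (𝓝 0) (𝓝 (1 + 0)) := tendsto_const_nhds.add ht
    rw [ContinuousAt]
    have h7 : y 0 = 1 + 0 := by simp [hy]
    rw [h7]
    exact h6
  refine ⟨ρ, y, posLaw_of (a := m ^ 2 - (4 * m + 2 * √(2 * m ^ 3))) (by linarith) h2, h4, by simp [hy], hcont, ?_, ?_⟩
  · filter_upwards [hyq] with u hu
    rw [hu]
    simp only [hy]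
    ring
  · refine ⟨h3.1.congr hRR, ?_⟩
    have h5 : ∀ᶠ z in 𝓝[≠] (0 : ℂ), RR (m ^ 2) σ z = (m : ℂ) ^ 2 * y (m * z) ^ 2 :=
      hRR.filter_mono nhdsWithin_le_nhds
    filter_upwards [h3.2, h5] with z hz hz2
    rw [← hz2]
    exact hz

/-- The counterexamples: for every `m ≥ 16` -/
theorem main (hF : S_FID) (hB : S_BETA) (hG : S_GEN) (hMP : S_MP) (hRS : S_RS) (hNR : S_NR)
    (hI : S_INV) (m : ℝ) (hm : 16 ≤ m) :
    ∃ (μ ρ : Measure ℝ) (Y y : ℂ → ℂ), PosLaw μ ∧ FreelyInfDiv μ ∧ ¬ FreeRegular μ ∧ PosLaw ρ ∧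
      IsFreeMul μ μ ρ ∧ FreelyInfDiv ρ ∧
      (Y 0 = 1 ∧ (∀ᶠ w in 𝓝 (0 : ℂ), Y w ^ 2 * (Y w - 1) = w) ∧
        IsRTransform μ (fun w => (m : ℂ) * Y w)) ∧
      (y 0 = 1 ∧ (∀ᶠ u in 𝓝 (0 : ℂ), y u ^ 2 - y u = u) ∧
        IsRTransform ρ (fun u => (m : ℂ) ^ 2 * y (m * u) ^ 2)) := by
  have hm0 : 0 < m := by linarith
  have hmc : (m : ℂ) ≠ 0 := by exact_mod_cast hm0.ne'
  obtain ⟨μ, Y, a1, a2, a3, a4, a5, a6⟩ := mu_exists hF hB hG m hm
  obtain ⟨ρ, y, b1, b2, b3, b4, b5, b6⟩ := rho_exists hF hMP m hm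
  obtain ⟨V, v1, v2, v3, U, hU, u1, u2⟩ := hI m hm0
  refine ⟨μ, ρ, Y, y, a1, a2, ?_, b1, ?_, b2, ⟨a4, a5, a6⟩, ⟨b3, b5, b6⟩⟩
  · intro hreg
    have h1 := hNR μ _ a1.1 hreg a6
    rw [second_deriv Y a3 a4 a5 m] at h1
    simp at h1
    linarith
  · -- the S-transforms
    have hV : Tendsto V (𝓝 0) (𝓝 1) := by
      have := v1.continuousAt.tendsto
      rwa [v2] at this
    set W1 : ℂ → ℂ := fun z => V z ^ 2 * (V z - 1) with hW1
    set W2 : ℂ → ℂ := fun z => (V z ^ 2 - V z) / m with hW2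
    have w1a : AnalyticAt ℂ W1 0 := (v1.pow 2).mul (v1.sub analyticAt_const)
    have w2a : AnalyticAt ℂ W2 0 := ((v1.pow 2).sub v1).div analyticAt_const hmc
    have w10 : W1 0 = 0 := by simp [hW1, v2]
    have w20 : W2 0 = 0 := by simp [hW2, v2]
    have t1 : Tendsto W1 (𝓝 0) (𝓝 0) := by
      have := w1a.continuousAt.tendsto
      rwa [w10] at this
    have t2 : Tendsto (fun z => (m : ℂ) * W2 z) (𝓝 0) (𝓝 0) := by
      have := (w2a.continuousAt.tendsto).const_mul (m : ℂ)
      rwa [w20, mul_zero] at this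
    have k1 : ∀ᶠ z in 𝓝 (0 : ℂ), Y (W1 z) = V z := by
      have hYt : Tendsto (fun z => Y (W1 z)) (𝓝 0) (𝓝 1) := by
        have := a3.continuousAt.tendsto
        rw [a4] at this
        exact this.comp t1
      filter_upwards [hYt.eventually hU, hV.eventually hU, t1.eventually a5] with z e1 e2 e3
      exact u1 e1 e2 e3
    have k2 : ∀ᶠ z in 𝓝 (0 : ℂ), y (m * W2 z) = V z := by
      have hYt : Tendsto (fun z => y (m * W2 z)) (𝓝 0) (𝓝 1) := by
        have := b4.tendsto
        rw [b3] at this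
        exact this.comp t2
      filter_upwards [hYt.eventually hU, hV.eventually hU, t2.eventually b5] with z e1 e2 e3
      apply u2 e1 e2
      simp only
      rw [e3, hW2]
      field_simp
    have s1 := hRS μ _ W1 a1.1 a6 (by rw [a4]; simpa using hmc) w1a w10 (by
      filter_upwards [k1, v3] with z e1 e2
      rw [e1, hW1]
      linear_combination e2)
    have s2 := hRS ρ _ W2 b1.1 b6 (by
        rw [mul_zero, b3]
        simpa using hmc) w2a w20 (by
      filter_upwards [k2, v3] with z e1 e2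
      rw [e1]
      simp only [hW2]
      field_simp
      linear_combination e2)
    refine ⟨_, _, s1, s1, s2.congr ?_⟩
    filter_upwards [k1, k2] with z e1 e2
    rw [e1, e2]
    rw [div_mul_div_comm]
    congr 1
    · ring
    · ring

end Pool.Agent.Q289.FM
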