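import Mathlib
import Pool.Agent.Q289.FM.Stm

/-!
# From the R-transform to the S-transform, and the first moments
-/

set_option autoImplicit false

open MeasureTheory Filter Topology

namespace Pool.Agent.Q289.FM

lemma psi_eq {μ : Measure ℝ} [IsProbabilityMeasure μ] {C : ℝ} (hC : ∀ᵐ x ∂μ, |x| ≤ C) {t : ℂ}
    (ht : t ≠ 0) (htC : ‖t‖ * C < 1) : psi μ t = (1 / t) * cauchyT μ (1 / t) - 1 := by
  have hne : ∀ᵐ x : ℝ ∂μ, 1 - t * (x : ℂ) ≠ 0 := by
    filter_upwards [hC] with x hx h0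
    have h1 : t * (x : ℂ) = 1 := (sub_eq_zero.1 h0).symm
    have h2 : ‖t‖ * |x| = 1 := by
      have := congrArg norm h1
      rwa [norm_mul, Complex.norm_real, Real.norm_eq_abs, norm_one] at this
    have := mul_le_mul_of_nonneg_left hx (norm_nonneg t)
    linarith
  have hint : Integrable (fun x : ℝ => (1 / t - (x : ℂ))⁻¹) μ := by
    refine Integrable.mono' (g := fun _ => (‖t‖ / (1 - ‖t‖ * C))) (integrable_const _) ?_ ?_
    · apply Measurable.aestronglyMeasurable
      fun_prop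
    · filter_upwards [hC, hne] with x hx h0
      have e1 : (1 / t - (x : ℂ))⁻¹ = t / (1 - t * x) := by
        field_simp
      rw [e1, norm_div]
      have h3 : 1 - ‖t‖ * C ≤ ‖1 - t * (x : ℂ)‖ := by
        have h4 := norm_sub_norm_le (1 : ℂ) (t * (x : ℂ))
        rw [norm_one, norm_mul, Complex.norm_real, Real.norm_eq_abs] at h4
        have := mul_le_mul_of_nonneg_left hx (norm_nonneg t)
        linarith
      exact div_le_div_of_nonneg_left (norm_nonneg _) (by linarith) h3
  unfold psi cauchyT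
  have h6 : ∫ x : ℝ, t * x / (1 - t * x) ∂μ = ∫ x : ℝ, ((1 / t) * (1 / t - (x : ℂ))⁻¹ - 1) ∂μ := by
    apply integral_congr_ae
    filter_upwards [hne] with x h0
    field_simp
    ring
  rw [h6, integral_sub (hint.const_mul _) (integrable_const _), integral_const_mul, integral_const,
    probReal_univ, one_smul]

lemma ae_le_of {μ : Measure ℝ} {C : ℝ} (h : μ (Set.Icc (-C) C)ᶜ = 0) : ∀ᵐ x ∂μ, |x| ≤ C := by
  have : ∀ᵐ x ∂μ, x ∈ Set.Icc (-C) C := by
    rw [ae_iff]; exact h
  filter_upwards [this] with x hx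
  exact abs_le.2 hx

theorem rs : S_RS := by
  intro μ R W hμ hR hR0 hW hW0 hWR
  obtain ⟨hp, C, hC⟩ := hμ
  have hCae := ae_le_of hC
  have hRW : AnalyticAt ℂ (fun z => R (W z)) 0 := by
    have h1 := hR.1
    rw [← hW0] at h1
    exact h1.comp hW
  have hRW0 : R (W 0) ≠ 0 := by rw [hW0]; exact hR0
  refine ⟨analyticAt_const.div hRW hRW0, ?_⟩
  have hWt : Tendsto W (𝓝 0) (𝓝 0) := by
    have := hW.continuousAt.tendsto
    rwa [hW0] at this
  have hne : ∀ᶠ z in 𝓝 (0 : ℂ), R (W z) ≠ 0 := hRW.continuousAt.eventually_ne hRW0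
  have hR2 : ∀ᶠ w in 𝓝 (0 : ℂ), w ≠ 0 → cauchyT μ (R w + 1 / w) = w := by
    have := hR.2
    rw [eventually_nhdsWithin_iff] at this
    filter_upwards [this] with w hw h0
    exact hw h0
  have hsmall : ∀ᶠ z in 𝓝 (0 : ℂ), ‖W z / (1 + z)‖ * C < 1 := by
    have h1 : Tendsto (fun z : ℂ => ‖W z / (1 + z)‖ * C) (𝓝 0) (𝓝 (‖(0 : ℂ) / (1 + 0)‖ * C)) := by
      apply Tendsto.mul_const
      apply Tendsto.norm
      apply Tendsto.div hWt
      · exact (continuous_const.add continuous_id).tendsto 0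
      · simp
    have h2 : ‖(0 : ℂ) / (1 + 0)‖ * C = 0 := by simp
    rw [h2] at h1
    exact h1.eventually (gt_mem_nhds one_pos)
  have hz1 : ∀ᶠ z in 𝓝 (0 : ℂ), 1 + z ≠ 0 := by
    have : ContinuousAt (fun z : ℂ => 1 + z) 0 := by fun_prop
    exact this.eventually_ne (by simp)
  filter_upwards [hWR, hne, hWt.eventually hR2, hsmall, hz1] with z e1 e2 e3 e4 e5
  by_cases hz : z = 0
  · subst hz
    simp [psi]
  · have hWz : W z ≠ 0 := by
      intro h
      rw [h, zero_mul] at e1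
      exact hz e1.symm
    have e6 : z * (1 / R (W z)) / (1 + z) = W z / (1 + z) := by
      congr 1
      rw [mul_one_div, div_eq_iff e2]
      exact e1.symm
    rw [e6]
    have ht : W z / (1 + z) ≠ 0 := div_ne_zero hWz e5
    rw [psi_eq hCae ht e4]
    have e7 : 1 / (W z / (1 + z)) = R (W z) + 1 / W z := by
      rw [one_div_div]
      rw [div_eq_iff hWz, add_mul, one_div_mul_cancel hWz]
      rw [mul_comm (R (W z)), e1]
      ring
    rw [e7, e3 hWz, ← e7]
    rw [one_div_div, div_mul_cancel₀ _ hWz]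
    ring

end Pool.Agent.Q289.FM
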