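import Mathlib
import Pool.Agent.Q289.FM.Stm
import Pool.Agent.Q289.FM.RS

/-!
# The first three moments in terms of the R-transform
-/

set_option autoImplicit false

open MeasureTheory Filter Topology

namespace Pool.Agent.Q289.FM

/-- second order Taylor expansion of an analytic function -/
lemma taylor2 {R : ℂ → ℂ} (hR : AnalyticAt ℂ R 0) :
    Tendsto (fun z : ℂ => (R z - R 0 - deriv R 0 * z) / z ^ 2) (𝓝[≠] 0) (𝓝 (iteratedDeriv 2 R 0 / 2)) := by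
  have h1 := hR.hasFPowerSeriesAt.isBigO_sub_partialSum_pow 3
  rw [Asymptotics.isBigO_iff] at h1
  obtain ⟨K, hK⟩ := h1
  rw [tendsto_iff_norm_sub_tendsto_zero]
  have hb : ∀ᶠ z in 𝓝[≠] (0 : ℂ), ‖‖(R z - R 0 - deriv R 0 * z) / z ^ 2 - iteratedDeriv 2 R 0 / 2‖‖ ≤ K * ‖z‖ := by
    rw [eventually_nhdsWithin_iff]
    filter_upwards [hK] with z hz h0
    rw [Set.mem_compl_singleton_iff] at h0
    rw [norm_norm]
    have h2 : (R z - R 0 - deriv R 0 * z) / z ^ 2 - iteratedDeriv 2 R 0 / 2 =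
        (R (0 + z) - FormalMultilinearSeries.partialSum
          (FormalMultilinearSeries.ofScalars ℂ (fun n => iteratedDeriv n R 0 / (n.factorial : ℂ))) 3 z) / z ^ 2 := by
      rw [FormalMultilinearSeries.partialSum]
      simp only [Finset.sum_range_succ, Finset.sum_range_zero, FormalMultilinearSeries.ofScalars_apply_eq,
        zero_add, iteratedDeriv_zero, iteratedDeriv_one, pow_zero, pow_one, Nat.factorial]
      simp only [smul_eq_mul]
      push_cast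
      field_simp
      ring
    rw [h2, norm_div, norm_pow]
    have h3 : 0 < ‖z‖ := norm_pos_iff.2 h0
    rw [div_le_iff₀ (by positivity)]
    have h4 : ‖‖z‖ ^ 3‖ = ‖z‖ ^ 3 := by rw [norm_pow, norm_norm]
    calc _ ≤ K * ‖‖z‖ ^ 3‖ := hz
      _ = K * ‖z‖ * ‖z‖ ^ 2 := by rw [h4]; ring
  refine squeeze_zero_norm' hb ?_
  have : Tendsto (fun z : ℂ => K * ‖z‖) (𝓝 0) (𝓝 (K * ‖(0 : ℂ)‖)) := by
    apply Continuous.tendsto; fun_prop
  rw [norm_zero, mul_zero] at this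
  exact this.mono_left nhdsWithin_le_nhds

lemma integrable_pow_of {μ : Measure ℝ} [IsProbabilityMeasure μ] {C : ℝ} (hC : ∀ᵐ x ∂μ, |x| ≤ C)
    (k : ℕ) : Integrable (fun x : ℝ => (x : ℂ) ^ k) μ := by
  refine Integrable.mono' (g := fun _ => C ^ k) (integrable_const _) ?_ ?_
  · apply Measurable.aestronglyMeasurable
    fun_prop
  · filter_upwards [hC] with x hx
    rw [norm_pow, Complex.norm_real, Real.norm_eq_abs]
    exact pow_le_pow_left₀ (abs_nonneg x) hx k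

lemma denom_ge {C x : ℝ} {t : ℂ} (hx : |x| ≤ C) (ht : ‖t‖ * C ≤ 1 / 2) :
    (1 / 2 : ℝ) ≤ ‖1 - t * (x : ℂ)‖ := by
  have h4 := norm_sub_norm_le (1 : ℂ) (t * (x : ℂ))
  rw [norm_one, norm_mul, Complex.norm_real, Real.norm_eq_abs] at h4
  have := mul_le_mul_of_nonneg_left hx (norm_nonneg t)
  linarith

lemma psi_expand {μ : Measure ℝ} [IsProbabilityMeasure μ] {C : ℝ} (hC : ∀ᵐ x ∂μ, |x| ≤ C) {t : ℂ}
    (ht : ‖t‖ * C ≤ 1 / 2) : ∃ e : ℂ, ‖e‖ ≤ 2 * C ^ 4 ∧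
      psi μ t = ((∫ x, x ∂μ : ℝ) : ℂ) * t + ((∫ x, x ^ 2 ∂μ : ℝ) : ℂ) * t ^ 2 +
        ((∫ x, x ^ 3 ∂μ : ℝ) : ℂ) * t ^ 3 + t ^ 4 * e := by
  refine ⟨∫ x : ℝ, (x : ℂ) ^ 4 / (1 - t * x) ∂μ, ?_, ?_⟩
  · have := norm_integral_le_of_norm_le_const (μ := μ) (f := fun x : ℝ => (x : ℂ) ^ 4 / (1 - t * x))
      (C := 2 * C ^ 4) (by
        filter_upwards [hC] with x hx
        have h1 := denom_ge hx ht
        rw [norm_div, norm_pow, Complex.norm_real, Real.norm_eq_abs, div_le_iff₀ (by linarith)]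
        have h2 : |x| ^ 4 ≤ C ^ 4 := pow_le_pow_left₀ (abs_nonneg x) hx 4
        have h3 : 0 ≤ C ^ 4 := by positivity
        nlinarith)
    rwa [probReal_univ, mul_one] at this
  · have hi4 : Integrable (fun x : ℝ => (x : ℂ) ^ 4 / (1 - t * x)) μ := by
      refine Integrable.mono' (g := fun _ => 2 * C ^ 4) (integrable_const _) ?_ ?_
      · apply Measurable.aestronglyMeasurable
        fun_prop
      · filter_upwards [hC] with x hx
        have h1 := denom_ge hx ht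
        rw [norm_div, norm_pow, Complex.norm_real, Real.norm_eq_abs, div_le_iff₀ (by linarith)]
        have h2 : |x| ^ 4 ≤ C ^ 4 := pow_le_pow_left₀ (abs_nonneg x) hx 4
        have h3 : 0 ≤ C ^ 4 := by positivity
        nlinarith
    have i1 := integrable_pow_of hC 1
    have i2 := integrable_pow_of hC 2
    have i3 := integrable_pow_of hC 3
    have h6 : psi μ t = ∫ x : ℝ, (((x : ℂ) ^ 1 * t + (x : ℂ) ^ 2 * t ^ 2 + (x : ℂ) ^ 3 * t ^ 3) +
        t ^ 4 * ((x : ℂ) ^ 4 / (1 - t * x))) ∂μ := by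
      unfold psi
      apply integral_congr_ae
      filter_upwards [hC] with x hx
      have h1 := denom_ge hx ht
      have h2 : 1 - t * (x : ℂ) ≠ 0 := by
        intro h
        rw [h, norm_zero] at h1
        linarith
      field_simp
      ring
    have j1 : Integrable (fun x : ℝ => (x : ℂ) ^ 1 * t) μ := i1.mul_const _
    have j2 : Integrable (fun x : ℝ => (x : ℂ) ^ 2 * t ^ 2) μ := i2.mul_const _
    have j3 : Integrable (fun x : ℝ => (x : ℂ) ^ 3 * t ^ 3) μ := i3.mul_const _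
    have j4 : Integrable (fun x : ℝ => t ^ 4 * ((x : ℂ) ^ 4 / (1 - t * x))) μ := hi4.const_mul _
    have j12 : Integrable (fun x : ℝ => (x : ℂ) ^ 1 * t + (x : ℂ) ^ 2 * t ^ 2) μ := j1.add j2
    have j123 : Integrable (fun x : ℝ => (x : ℂ) ^ 1 * t + (x : ℂ) ^ 2 * t ^ 2 + (x : ℂ) ^ 3 * t ^ 3) μ :=
      j12.add j3
    rw [h6, integral_add j123 j4, integral_add j12 j3,
      integral_add j1 j2, integral_mul_const, integral_mul_const,
      integral_mul_const, integral_const_mul]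
    have c1 : ∫ x : ℝ, (x : ℂ) ^ 1 ∂μ = ((∫ x, x ∂μ : ℝ) : ℂ) := by
      rw [← integral_complex_ofReal]; simp
    have c2 : ∫ x : ℝ, (x : ℂ) ^ 2 ∂μ = ((∫ x, x ^ 2 ∂μ : ℝ) : ℂ) := by
      rw [← integral_complex_ofReal]; simp
    have c3 : ∫ x : ℝ, (x : ℂ) ^ 3 ∂μ = ((∫ x, x ^ 3 ∂μ : ℝ) : ℂ) := by
      rw [← integral_complex_ofReal]; simp
    rw [c1, c2, c3]

/-- the basic expansion -/
lemma expansion {μ : Measure ℝ} {R : ℂ → ℂ} (hμ : CompactProb μ) (hR : IsRTransform μ R) :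
    ∃ B : ℝ, ∀ᶠ z in 𝓝[≠] (0 : ℂ), ∃ e : ℂ, ‖e‖ ≤ B ∧
      (1 + z * R z) ^ 3 * R z - ((∫ x, x ∂μ : ℝ) : ℂ) * (1 + z * R z) ^ 2 -
        ((∫ x, x ^ 2 ∂μ : ℝ) : ℂ) * z * (1 + z * R z) - ((∫ x, x ^ 3 ∂μ : ℝ) : ℂ) * z ^ 2 = z ^ 3 * e := by
  obtain ⟨hp, C, hC⟩ := hμ
  have hCae := ae_le_of hC
  refine ⟨4 * C ^ 4, ?_⟩
  have hRc : Tendsto R (𝓝 0) (𝓝 (R 0)) := hR.1.continuousAt.tendsto
  have hD : Tendsto (fun z => 1 + z * R z) (𝓝 0) (𝓝 1) := by
    have h1 : Tendsto (fun z => 1 + z * R z) (𝓝 0) (𝓝 (1 + 0 * R 0)) :=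
      tendsto_const_nhds.add (tendsto_id.mul hRc)
    simpa using h1
  have hD2 : ∀ᶠ z in 𝓝 (0 : ℂ), (1 / 2 : ℝ) < ‖1 + z * R z‖ := by
    have h1 := hD.norm
    rw [norm_one] at h1
    exact h1.eventually (lt_mem_nhds (by norm_num))
  have hs : ∀ᶠ z in 𝓝 (0 : ℂ), ‖z / (1 + z * R z)‖ * C < 1 / 2 := by
    have h1 : Tendsto (fun z => ‖z / (1 + z * R z)‖ * C) (𝓝 0) (𝓝 (‖(0 : ℂ) / 1‖ * C)) :=
      ((tendsto_id.div hD one_ne_zero).norm).mul_const C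
    rw [zero_div, norm_zero, zero_mul] at h1
    exact h1.eventually (gt_mem_nhds (by norm_num))
  have hz0 : ∀ᶠ z in 𝓝[≠] (0 : ℂ), z ≠ 0 := eventually_mem_nhdsWithin
  filter_upwards [hR.2, hD2.filter_mono nhdsWithin_le_nhds, hs.filter_mono nhdsWithin_le_nhds, hz0]
    with z e1 e2 e3 e4
  set D := 1 + z * R z with hDd
  have hD0 : D ≠ 0 := by
    intro h
    rw [h, norm_zero] at e2
    linarith
  have ht0 : z / D ≠ 0 := div_ne_zero e4 hD0
  have h1 := psi_eq hCae ht0 (by linarith)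
  have h2 : 1 / (z / D) = R z + 1 / z := by
    rw [one_div_div, hDd, div_eq_iff e4, add_mul, one_div_mul_cancel e4]
    ring
  rw [h2, e1, ← h2, one_div_div, div_mul_cancel₀ _ e4] at h1
  obtain ⟨e, he1, he2⟩ := psi_expand hCae e3.le
  refine ⟨e / D, ?_, ?_⟩
  · rw [norm_div, div_le_iff₀ (by linarith)]
    have h3 : 0 ≤ C ^ 4 := by positivity
    nlinarith
  · rw [h1] at he2
    have h3 : D - 1 = z * R z := by rw [hDd]; ring
    have h4 : D ^ 3 * (D - 1) = D ^ 3 * (((∫ x, x ∂μ : ℝ) : ℂ) * (z / D) + ((∫ x, x ^ 2 ∂μ : ℝ) : ℂ) * (z / D) ^ 2 +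
        ((∫ x, x ^ 3 ∂μ : ℝ) : ℂ) * (z / D) ^ 3 + (z / D) ^ 4 * e) := by rw [he2]
    have h5 : D ^ 3 * (((∫ x, x ∂μ : ℝ) : ℂ) * (z / D) + ((∫ x, x ^ 2 ∂μ : ℝ) : ℂ) * (z / D) ^ 2 +
        ((∫ x, x ^ 3 ∂μ : ℝ) : ℂ) * (z / D) ^ 3 + (z / D) ^ 4 * e) =
        z * (((∫ x, x ∂μ : ℝ) : ℂ) * D ^ 2 + ((∫ x, x ^ 2 ∂μ : ℝ) : ℂ) * z * D +
        ((∫ x, x ^ 3 ∂μ : ℝ) : ℂ) * z ^ 2 + z ^ 3 * (e / D)) := by
      field_simp
    rw [h5, h3] at h4
    have h6 : z * (D ^ 3 * R z - ((∫ x, x ∂μ : ℝ) : ℂ) * D ^ 2 - ((∫ x, x ^ 2 ∂μ : ℝ) : ℂ) * z * D -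
        ((∫ x, x ^ 3 ∂μ : ℝ) : ℂ) * z ^ 2 - z ^ 3 * (e / D)) = 0 := by
      linear_combination h4
    have h7 := (mul_eq_zero.1 h6).resolve_left e4
    linear_combination h7

theorem mom : S_MOM := by
  intro μ R hμ hR
  obtain ⟨B, hB⟩ := expansion hμ hR
  set m1 : ℂ := ((∫ x, x ∂μ : ℝ) : ℂ) with hm1
  set m2 : ℂ := ((∫ x, x ^ 2 ∂μ : ℝ) : ℂ) with hm2
  set m3 : ℂ := ((∫ x, x ^ 3 ∂μ : ℝ) : ℂ) with hm3
  have hRc : Tendsto R (𝓝[≠] 0) (𝓝 (R 0)) := hR.1.continuousAt.tendsto.mono_left nhdsWithin_le_nhds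
  have hz : Tendsto (fun z : ℂ => z) (𝓝[≠] 0) (𝓝 0) := tendsto_id.mono_left nhdsWithin_le_nhds
  have hz0 : ∀ᶠ z in 𝓝[≠] (0 : ℂ), z ≠ 0 := eventually_mem_nhdsWithin
  have hD : Tendsto (fun z => 1 + z * R z) (𝓝[≠] 0) (𝓝 1) := by
    have h1 : Tendsto (fun z => 1 + z * R z) (𝓝[≠] 0) (𝓝 (1 + 0 * R 0)) :=
      tendsto_const_nhds.add (hz.mul hRc)
    simpa using h1
  have hq2 := taylor2 hR.1
  have hq1 : Tendsto (fun z : ℂ => (R z - R 0) / z) (𝓝[≠] 0) (𝓝 (deriv R 0)) := by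
    have h1 : Tendsto (fun z : ℂ => deriv R 0 + z * ((R z - R 0 - deriv R 0 * z) / z ^ 2)) (𝓝[≠] 0)
        (𝓝 (deriv R 0 + 0 * (iteratedDeriv 2 R 0 / 2))) := tendsto_const_nhds.add (hz.mul hq2)
    rw [zero_mul, add_zero] at h1
    refine h1.congr' ?_
    filter_upwards [hz0] with z h0
    field_simp
    ring
  -- the error term
  choose! e he using fun z (h : ∃ e : ℂ, ‖e‖ ≤ B ∧
      (1 + z * R z) ^ 3 * R z - m1 * (1 + z * R z) ^ 2 -
        m2 * z * (1 + z * R z) - m3 * z ^ 2 = z ^ 3 * e) => h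
  have hev : ∀ᶠ z in 𝓝[≠] (0 : ℂ), ‖e z‖ ≤ B ∧
      (1 + z * R z) ^ 3 * R z - m1 * (1 + z * R z) ^ 2 -
        m2 * z * (1 + z * R z) - m3 * z ^ 2 = z ^ 3 * e z := by
    filter_upwards [hB] with z h
    exact he z h
  have hze : Tendsto (fun z => z * e z) (𝓝[≠] 0) (𝓝 0) := by
    have hb : ∀ᶠ z in 𝓝[≠] (0 : ℂ), ‖z * e z‖ ≤ ‖z‖ * B := by
      filter_upwards [hev] with z h
      rw [norm_mul]
      exact mul_le_mul_of_nonneg_left h.1 (norm_nonneg z)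
    refine squeeze_zero_norm' hb ?_
    have := hz.norm.mul_const B
    simpa using this
  have e1 : m1 = R 0 := by
    have l1 : Tendsto (fun z => (1 + z * R z) ^ 3 * R z - m1 * (1 + z * R z) ^ 2 -
        m2 * z * (1 + z * R z) - m3 * z ^ 2) (𝓝[≠] 0)
        (𝓝 (1 ^ 3 * R 0 - m1 * 1 ^ 2 - m2 * 0 * 1 - m3 * 0 ^ 2)) :=
      ((((hD.pow 3).mul hRc).sub ((hD.pow 2).const_mul m1)).sub ((hz.const_mul m2).mul hD)).sub
        ((hz.pow 2).const_mul m3)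
    have l2 : Tendsto (fun z => z ^ 2 * (z * e z)) (𝓝[≠] 0) (𝓝 (0 ^ 2 * 0)) := (hz.pow 2).mul hze
    have l3 := tendsto_nhds_unique (l1.congr' (by
      filter_upwards [hev] with z h
      rw [h.2]; ring)) l2
    linear_combination -l3
  have e2 : m2 = deriv R 0 + R 0 ^ 2 := by
    have l1 : Tendsto (fun z => (1 + z * R z) ^ 2 * ((R z - R 0) / z + R z ^ 2) -
        m2 * (1 + z * R z) - m3 * z) (𝓝[≠] 0)
        (𝓝 (1 ^ 2 * (deriv R 0 + R 0 ^ 2) - m2 * 1 - m3 * 0)) :=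
      (((hD.pow 2).mul (hq1.add (hRc.pow 2))).sub (hD.const_mul m2)).sub (hz.const_mul m3)
    have l2 : Tendsto (fun z => z * (z * e z)) (𝓝[≠] 0) (𝓝 (0 * 0)) := hz.mul hze
    have l3 := tendsto_nhds_unique (l1.congr' (by
      filter_upwards [hev, hz0] with z h h0
      have h1 := h.2
      rw [e1] at h1
      have h2 : z * ((1 + z * R z) ^ 2 * ((R z - R 0) / z + R z ^ 2) -
        m2 * (1 + z * R z) - m3 * z) = z * (z * (z * e z)) := by
        have h3 : z * ((R z - R 0) / z) = R z - R 0 := mul_div_cancel₀ _ h0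
        linear_combination h1 + (1 + z * R z) ^ 2 * h3
      exact mul_left_cancel₀ h0 h2)) l2
    linear_combination -l3
  have e3 : m3 = iteratedDeriv 2 R 0 / 2 + 3 * R 0 * deriv R 0 + R 0 ^ 3 := by
    have l1 : Tendsto (fun z => (1 + z * R z) * ((R z - R 0 - deriv R 0 * z) / z ^ 2 +
        (R z - R 0) / z * (R z + R 0) + R z * ((R z - R 0) / z + R z ^ 2)) - m3) (𝓝[≠] 0)
        (𝓝 (1 * (iteratedDeriv 2 R 0 / 2 + deriv R 0 * (R 0 + R 0) +
          R 0 * (deriv R 0 + R 0 ^ 2)) - m3)) :=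
      ((hD.mul ((hq2.add (hq1.mul (hRc.add tendsto_const_nhds))).add
        (hRc.mul (hq1.add (hRc.pow 2))))).sub tendsto_const_nhds)
    have l3 := tendsto_nhds_unique (l1.congr' (by
      filter_upwards [hev, hz0] with z h h0
      have h1 := h.2
      rw [e1, e2] at h1
      have h2 : z ^ 2 * ((1 + z * R z) * ((R z - R 0 - deriv R 0 * z) / z ^ 2 +
        (R z - R 0) / z * (R z + R 0) + R z * ((R z - R 0) / z + R z ^ 2)) - m3) = z ^ 2 * (z * e z) := by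
        have h3 : z * ((R z - R 0) / z) = R z - R 0 := mul_div_cancel₀ _ h0
        have h4 : z ^ 2 * ((R z - R 0 - deriv R 0 * z) / z ^ 2) = R z - R 0 - deriv R 0 * z :=
          mul_div_cancel₀ _ (pow_ne_zero 2 h0)
        linear_combination h1 + (1 + z * R z) * h4 + (1 + z * R z) * z * (R z + R 0 + R z) * h3
      exact mul_left_cancel₀ (pow_ne_zero 2 h0) h2)) hze
    linear_combination -l3
  exact ⟨e1, e2, e3⟩

theorem nr : S_NR := by
  intro μ R hμ hreg hR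
  obtain ⟨m1, m2, m3⟩ := mom μ R hμ hR
  have key : ∀ t : ℝ, 0 < t → 0 ≤ (iteratedDeriv 2 R 0 / 2).re + 3 * t * ((R 0) * deriv R 0).re +
      t ^ 2 * (R 0 ^ 3).re := by
    intro t ht
    obtain ⟨ν, hν, R', hR'μ, hR'ν⟩ := hreg.2 t ht
    obtain ⟨a1, a2, a3⟩ := mom μ R' hμ hR'μ
    obtain ⟨b1, b2, b3⟩ := mom ν _ hν.1 hR'ν
    have c0 : R' 0 = R 0 := by rw [← a1, m1]
    have c1 : deriv R' 0 = deriv R 0 := by
      have : deriv R' 0 + R' 0 ^ 2 = deriv R 0 + R 0 ^ 2 := by rw [← a2, m2]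
      rw [c0] at this
      linear_combination this
    have c2 : iteratedDeriv 2 R' 0 = iteratedDeriv 2 R 0 := by
      have : iteratedDeriv 2 R' 0 / 2 + 3 * R' 0 * deriv R' 0 + R' 0 ^ 3 =
          iteratedDeriv 2 R 0 / 2 + 3 * R 0 * deriv R 0 + R 0 ^ 3 := by rw [← a3, m3]
      rw [c0, c1] at this
      linear_combination 2 * this
    have d1 : deriv (fun z => (t : ℂ) * R' z) 0 = t * deriv R' 0 := by
      rw [deriv_const_mul_field]
    have d2 : iteratedDeriv 2 (fun z => (t : ℂ) * R' z) 0 = t * iteratedDeriv 2 R' 0 := by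
      rw [iteratedDeriv_const_mul_field]
    rw [d1, d2, c0, c1, c2] at b3
    have hnn : 0 ≤ ∫ x, x ^ 3 ∂ν := by
      apply integral_nonneg_of_ae
      have : ∀ᵐ x ∂ν, x ∉ Set.Iio (0 : ℝ) := measure_eq_zero_iff_ae_notMem.1 hν.2
      filter_upwards [this] with x hx
      rw [Set.mem_Iio, not_lt] at hx
      simp only [Pi.zero_apply]
      positivity
    have e1 : ((∫ x, x ^ 3 ∂ν : ℝ) : ℂ) = t * ((iteratedDeriv 2 R 0 / 2) + ((3 * t : ℝ) : ℂ) * (R 0 * deriv R 0) +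
        ((t ^ 2 : ℝ) : ℂ) * R 0 ^ 3) := by
      rw [b3]
      push_cast
      ring
    have e2 := congrArg Complex.re e1
    rw [Complex.ofReal_re, Complex.re_ofReal_mul, Complex.add_re, Complex.add_re, Complex.re_ofReal_mul,
      Complex.re_ofReal_mul] at e2
    rw [e2] at hnn
    exact nonneg_of_mul_nonneg_right hnn ht
  have hlim : Tendsto (fun t : ℝ => (iteratedDeriv 2 R 0 / 2).re + 3 * t * ((R 0) * deriv R 0).re +
      t ^ 2 * (R 0 ^ 3).re) (𝓝[>] 0) (𝓝 ((iteratedDeriv 2 R 0 / 2).re)) := by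
    have h1 : Continuous (fun t : ℝ => (iteratedDeriv 2 R 0 / 2).re + 3 * t * ((R 0) * deriv R 0).re +
      t ^ 2 * (R 0 ^ 3).re) := by fun_prop
    have h2 := h1.tendsto 0
    simp only [mul_zero, zero_mul, add_zero, ne_eq, OfNat.ofNat_ne_zero, not_false_eq_true, zero_pow] at h2
    exact h2.mono_left nhdsWithin_le_nhds
  have h3 : 0 ≤ (iteratedDeriv 2 R 0 / 2).re :=
    ge_of_tendsto hlim (by
      filter_upwards [self_mem_nhdsWithin] with t ht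
      exact key t ht)
  have h4 : (iteratedDeriv 2 R 0 / 2).re = (iteratedDeriv 2 R 0).re / 2 := by
    rw [Complex.div_re]; simp [Complex.normSq]; ring
  rw [h4] at h3
  linarith

end Pool.Agent.Q289.FM
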